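import Pool.Agent.H412R3.VTC.Ring

set_option autoImplicit false

/-!
# An uncountable model of `VTC⁰` that is not an exponential integer part

The model `M` has a countable number sort and an uncountable string sort. It is a cut of an
elementary (for bounded formulas) substructure `K` of an ultrapower of the natural numbers: the
numbers of `M` are the elements of `K` below some `ω ^ n`, and the strings of `M` are the
elements of `K` below some `2 ^ (ω ^ n)`, as sets of binary digits. `K` is the closure of a set
`G` of numbers below `2 ^ ω` under countably many functions, where `G` is maximal such that the
closure contains no new elements below the numbers `ω ^ n`. If `G` were countable, a suitable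
element could be added: the closure is countable, and one meets countably many requirements
by a decreasing sequence of definable subsets of `2 ^ ω` of size at least `2 ^ ω / ω ^ c`, `c`
standard (each function to `ω ^ n` is constant on a large subset).

In an exponential field each interval `[p, 2 p)` is mapped by the logarithm to an interval of
length `1`, which contains at most one element of an integer part. The positive elements of the ring
of binary integers of `M` are covered by the intervals `[2 ^ n, 2 ^ (n + 1))`, `n` a number of
`M`, so an integer part would have to be countable.
-/

universe u

namespace Pool.Agent.Results.MP_632592_lc.UncountableNotExpIP

open Pool.Agent.H412R3.VTC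

/-- There is an uncountable model `M` of `VTC⁰` (with countably many numbers and uncountably many
strings) whose ring `ℤ^M` of binary integers exists and is not isomorphic to an exponential integer
part of any real-closed exponential field (in any universe). -/
theorem result : ∃ M : TS, IsVTC0 M ∧ Countable M.Num ∧ Uncountable M.Str ∧
    (∃ (R : Type) (_ : CommRing R) (_ : LinearOrder R) (_ : IsStrictOrderedRing R)
      (val : M.Str → R), BinRing M R val) ∧
    ∀ (R : Type) [CommRing R] [LinearOrder R] [IsStrictOrderedRing R] (val : M.Str → R),
      BinRing M R val → ¬ IsExpIP.{u} R :=
  main

end Pool.Agent.Results.MP_632592_lc.UncountableNotExpIP
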